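import Pool.Agent.Helper84.OV.Zero

/-!
# Project OV, packet OV-ORD: the order along the curve
-/

set_option autoImplicit false

open Finset

namespace Pool.Agent.Helper64.OV.ORD

open Pool.Agent.Helper84.OV
open scoped Polynomial

theorem t : S_ORD := by
  intro hRES hLOW G p q Ψ hBr hirr hdeg hGY S n k hS hn hk
  obtain ⟨N, a, b, hN, hCN, hn1⟩ := hRES S G n hirr hdeg hn hS
  refine le_trans ?_ hn1
  have h1 : PowerSeries.X ^ k ∣ Ψ (Polynomial.C N) := by
    rw [hCN, map_add, map_mul, map_mul, hBr.zero, mul_zero, add_zero]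
    exact hk.mul_left _
  obtain ⟨M, hM, hnd⟩ := Polynomial.exists_eq_pow_rootMultiplicity_mul_and_not_dvd N hN p
  set e := Polynomial.rootMultiplicity p N with he
  set c : ℤ[X] := Polynomial.X - Polynomial.C p with hc
  have hMp : M.eval p ≠ 0 := fun h => hnd (Polynomial.dvd_iff_isRoot.2 h)
  -- the local parameter
  have hx0 : PowerSeries.constantCoeff (Ψ (Polynomial.C c)) = 0 := by
    rw [hBr.ev, ev_C, hc]
    simp
  obtain ⟨y, hy⟩ := PowerSeries.X_dvd_iff.2 hx0
  have hdx : PowerSeries.constantCoeff (dd (Ψ (Polynomial.C c))) ≠ 0 := by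
    rw [hBr.der, hBr.ev, DG, dX_C, hc, map_sub, map_mul, map_mul, Polynomial.derivative_C]
    simpa using hGY
  have hy0 : PowerSeries.constantCoeff y ≠ 0 := by
    rw [hy] at hdx
    have h2 : dd (PowerSeries.X * y) = y + PowerSeries.X * dd y := by
      simp only [dd, Derivation.leibniz, PowerSeries.derivative_X, smul_eq_mul]
      ring
    rw [h2] at hdx
    simpa using hdx
  have hM0 : PowerSeries.constantCoeff (Ψ (Polynomial.C M)) ≠ 0 := by
    rw [hBr.ev, ev_C]
    exact_mod_cast hMp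
  have hfac : Ψ (Polynomial.C N) = PowerSeries.X ^ e * (y ^ e * Ψ (Polynomial.C M)) := by
    rw [hM, Polynomial.C_mul, Polynomial.C_pow, map_mul, map_pow, hy, mul_pow, mul_assoc]
  have hke : k ≤ e := by
    by_contra hcon
    have h2 : PowerSeries.X ^ (e + 1) ∣ PowerSeries.X ^ e * (y ^ e * Ψ (Polynomial.C M)) := by
      rw [← hfac]
      exact (pow_dvd_pow _ (by omega)).trans h1
    rw [pow_succ] at h2
    have h3 := (mul_dvd_mul_iff_left (pow_ne_zero e (PowerSeries.X_ne_zero (R := ℚ)))).1 h2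
    have h4 := PowerSeries.X_dvd_iff.1 h3
    rw [map_mul, map_pow] at h4
    exact (mul_ne_zero (pow_ne_zero _ hy0) hM0) h4
  refine hLOW N p k hN ?_
  rw [hM]
  exact (pow_dvd_pow _ hke).mul_right _

end Pool.Agent.Helper64.OV.ORD
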