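import Pool.Agent.Helper7.OV.Goals2

/-!
# Project OV, packet OV-VAL: the values of the linear forms
-/

set_option autoImplicit false

open Finset

namespace Pool.Agent.Helper64.OV.VAL

open Pool.Agent.Helper7.OV

/-- the evaluation as a ring homomorphism -/
noncomputable def evH (x y : ℤ) : P2 →+* ℤ := Polynomial.evalEvalRingHom x y

theorem ev_eq (x y : ℤ) (F : P2) : ev x y F = evH x y F := rfl

theorem ev_dvd {F G : P2} (x y : ℤ) (h : F ∣ G) : ev x y F ∣ ev x y G := by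
  simp only [ev_eq]
  exact map_dvd _ h

theorem cf_co (F : P2) (i j : ℕ) : cf F i j = (co F i j : ℚ) := by
  simp [cf]

theorem co_of_cf {F : P2} {i j : ℕ} (h : cf F i j = 0) : co F i j = 0 := by
  rw [cf_co] at h
  exact_mod_cast h

theorem y_dvd {F : P2} {n : ℕ} (h : ∀ i j : ℕ, j < n → co F i j = 0) (x y : ℤ) :
    y ^ n ∣ ev x y F := by
  have h1 : (Polynomial.X : P2) ^ n ∣ F := by
    rw [Polynomial.X_pow_dvd_iff]
    intro j hj
    ext i
    simpa [co] using h i j hj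
  have h2 := ev_dvd x y h1
  have h3 : ev x y ((Polynomial.X : P2) ^ n) = y ^ n := by
    simp [ev]
  rwa [h3] at h2

theorem x_dvd {F : P2} {n : ℕ} (h : ∀ i j : ℕ, i < n → co F i j = 0) (x y : ℤ) :
    x ^ n ∣ ev x y F := by
  have h1 : (Polynomial.C ((Polynomial.X : Polynomial ℤ) ^ n) : P2) ∣ F := by
    rw [Polynomial.C_dvd_iff_dvd_coeff]
    intro j
    rw [Polynomial.X_pow_dvd_iff]
    intro i hi
    exact h i j hi
  have h2 := ev_dvd x y h1
  have h3 : ev x y (Polynomial.C ((Polynomial.X : Polynomial ℤ) ^ n)) = x ^ n := by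
    rw [ev, Polynomial.evalEval_C, Polynomial.eval_pow, Polynomial.eval_X]
  rwa [h3] at h2

theorem ev_sum (x y : ℤ) (F : P2) :
    ev x y F = ∑ j ∈ F.support, ∑ i ∈ (F.coeff j).support, co F i j * x ^ i * y ^ j := by
  have h1 : ev x y F = ∑ j ∈ F.support, (F.coeff j).eval x * y ^ j := by
    rw [ev, Polynomial.evalEval, Polynomial.eval_eq_sum (p := F), Polynomial.sum,
      Polynomial.eval_finsetSum]
    refine Finset.sum_congr rfl fun j _ => ?_
    simp
  rw [h1]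
  refine Finset.sum_congr rfl fun j _ => ?_
  rw [Polynomial.eval_eq_sum, Polynomial.sum, Finset.sum_mul]
  rfl

theorem abs_ev_le {F : P2} {x y : ℤ} {E : ℝ} (hx : 0 ≤ x) (hy : 0 ≤ y)
    (h : ∀ i j : ℕ, co F i j ≠ 0 → (x : ℝ) ^ i * (y : ℝ) ^ j ≤ E) :
    |(ev x y F : ℝ)| ≤ len F * E := by
  have hx' : (0 : ℝ) ≤ x := by exact_mod_cast hx
  have hy' : (0 : ℝ) ≤ y := by exact_mod_cast hy
  rw [ev_sum, len]
  push_cast
  rw [Finset.sum_mul]
  refine (Finset.abs_sum_le_sum_abs _ _).trans (Finset.sum_le_sum fun j _ => ?_)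
  rw [len1]
  push_cast
  rw [Finset.sum_mul]
  refine (Finset.abs_sum_le_sum_abs _ _).trans (Finset.sum_le_sum fun i hi => ?_)
  have hc : co F i j ≠ 0 := Polynomial.mem_support_iff.1 hi
  have he : ((((F.coeff j).coeff i).natAbs : ℕ) : ℝ) = |(co F i j : ℝ)| := by
    rw [Nat.cast_natAbs]
    push_cast
    rfl
  rw [he, mul_assoc, abs_mul, abs_of_nonneg (mul_nonneg (pow_nonneg hx' i) (pow_nonneg hy' j))]
  exact mul_le_mul_of_nonneg_left (h i j hc) (abs_nonneg _)

theorem t : S_VAL := by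
  intro hSQR hLEN hVQ hVP hVI s t p q w1 w2 d S a hS hG
  by_cases hN : NN p q w1 w2 a = 0
  · exact Or.inl hN
  right
  obtain ⟨hp, hq, h3, hpq, ht, hts, -, eqn, hlt, hle2, sq1, sq2, dv1, dv2, hd, hd2⟩ := hS
  obtain ⟨c1, c2, c3, c4, c5, c6, c7⟩ := hG
  have hs : 1 ≤ s := ht.trans hts
  have hpZ : Prime (p : ℤ) := Nat.prime_iff_prime_int.1 hp
  have hqZ : Prime (q : ℤ) := Nat.prime_iff_prime_int.1 hq
  have hqp : ¬ (q : ℤ) ∣ p := by
    intro h
    have := Nat.le_of_dvd (by omega) (Int.natCast_dvd_natCast.1 h)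
    omega
  have hpq' : ¬ (p : ℤ) ∣ q := by
    intro h
    have := (Nat.prime_dvd_prime_iff_eq hp hq).1 (Int.natCast_dvd_natCast.1 h)
    omega
  -- divisibility by `q ^ (2 t)`
  have hQ1 : (q : ℤ) ^ (2 * t) ∣ ev p q (a 0) + ev p q (a 1) * w1 := by
    refine hVQ hSQR p q w1 (2 * t) (a 0) (a 1) hqZ (by exact_mod_cast (by omega : 3 ≤ q)) hqp dv1 ?_
      (by push_cast; exact c1)
    refine ⟨-(((p : ℤ) - 1) * q), ?_⟩
    rw [sq1]
    have : (q : ℤ) ^ (2 * t + 1) = q ^ (2 * t) * q := pow_succ _ _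
    rw [this] at eqn
    linear_combination -eqn
  have hQ2 : (q : ℤ) ^ (2 * t) ∣ ev p q (a 2) * w2 := by
    have h1 : (q : ℤ) ^ t ∣ ev p q (a 2) := by
      refine y_dvd (fun i j hj => co_of_cf (c2 i j ?_)) _ _
      simpa using hj
    have h2 : (q : ℤ) ^ t ∣ w2 := by
      rcases sq_eq_sq_iff_eq_or_eq_neg.1 sq2 with h | h <;> rw [h]
      exact (dvd_neg).2 dvd_rfl
    rw [two_mul, pow_add]
    exact mul_dvd_mul h1 h2
  have hQ : (q : ℤ) ^ (2 * t) ∣ NN p q w1 w2 a := by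
    rw [NN]
    exact dvd_add hQ1 hQ2
  have hP1 : (p : ℤ) ^ (2 * t) ∣ ev p q (a 0) + ev p q (a 2) * w2 := by
    refine hVP hSQR hVQ p q w2 (2 * t) (a 0) (a 2) hpZ (by exact_mod_cast h3) hpq' dv2 ?_
      (by push_cast; exact c3)
    have h1 : (p : ℤ) ^ (2 * t) ∣ p ^ (2 * s) := pow_dvd_pow _ (by omega)
    obtain ⟨r, hr⟩ := h1
    refine ⟨-(((q : ℤ) - 1) * p * r), ?_⟩
    rw [sq2]
    have h2 : (q : ℤ) ^ (2 * t + 1) = (q ^ t) ^ 2 * q := by ring
    have h3' : ((p : ℤ) ^ s) ^ 2 = p ^ (2 * t) * r := by rw [← hr]; ring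
    rw [h2, h3'] at eqn
    linear_combination eqn
  have hP2 : (p : ℤ) ^ (2 * t) ∣ ev p q (a 1) * w1 := by
    have h1 : (p : ℤ) ^ (2 * t - s) ∣ ev p q (a 1) := by
      refine x_dvd (fun i j hi => co_of_cf (c4 i j ?_)) _ _
      have : (i : ℤ) < 2 * t - s := by omega
      simpa using this
    have h2 : (p : ℤ) ^ s ∣ w1 := by
      rcases sq_eq_sq_iff_eq_or_eq_neg.1 sq1 with h | h <;> rw [h]
      exact (dvd_neg).2 dvd_rfl
    have h3 := mul_dvd_mul h1 h2
    rw [← pow_add] at h3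
    exact (pow_dvd_pow _ (by omega)).trans h3
  have hP : (p : ℤ) ^ (2 * t) ∣ NN p q w1 w2 a := by
    have : NN p q w1 w2 a = (ev p q (a 0) + ev p q (a 2) * w2) + ev p q (a 1) * w1 := by
      rw [NN]; ring
    rw [this]
    exact dvd_add hP1 hP2
  have hcop : IsCoprime ((p : ℤ) ^ (2 * t)) ((q : ℤ) ^ (2 * t)) := by
    refine IsCoprime.pow ?_
    rw [Nat.isCoprime_iff_coprime]
    exact (Nat.coprime_primes hp hq).2 (by omega)
  have hPQ : (p : ℤ) ^ (2 * t) * (q : ℤ) ^ (2 * t) ∣ NN p q w1 w2 a := hcop.mul_dvd hP hQ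
  have hlow : (p : ℤ) ^ (2 * t) * (q : ℤ) ^ (2 * t) ≤ |NN p q w1 w2 a| :=
    Int.le_of_dvd (abs_pos.2 hN) ((dvd_abs _ _).2 hPQ)
  have hlowR : (p : ℝ) ^ (2 * t) * (q : ℝ) ^ (2 * t) ≤ |(NN p q w1 w2 a : ℝ)| := by
    exact_mod_cast hlow
  -- logarithms
  have hp0 : (0 : ℝ) < p := by exact_mod_cast (by omega : 0 < p)
  have hq0 : (0 : ℝ) < q := by exact_mod_cast (by omega : 0 < q)
  have hs0 : (0 : ℝ) < s := by exact_mod_cast hs
  have hs1 : (1 : ℝ) ≤ s := by exact_mod_cast hs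
  have hlogq : 0 ≤ Real.log q := Real.log_nonneg (by exact_mod_cast (by omega : 1 ≤ q))
  have hlog1 : s * Real.log p ≤ t * Real.log q := by
    have h1 : ((p : ℝ) ^ s) ≤ (q : ℝ) ^ t := by exact_mod_cast hlt.le
    have h2 := Real.log_le_log (pow_pos hp0 s) h1
    rwa [Real.log_pow, Real.log_pow] at h2
  have hlog2 : t * Real.log q ≤ Real.log 2 + s * Real.log p := by
    have h1 : ((q : ℝ) ^ t) ≤ 2 * (p : ℝ) ^ s := by exact_mod_cast hle2
    have h2 := Real.log_le_log (pow_pos hq0 t) h1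
    rwa [Real.log_mul (by norm_num) (pow_pos hp0 s).ne', Real.log_pow, Real.log_pow] at h2
  set E : ℝ := Real.exp ((S : ℝ) / s * Real.log q) with hE
  have hE0 : 0 < E := Real.exp_pos _
  -- the bound of `A`
  have hA : |(ev p q (a 0) : ℝ)| ≤ len (a 0) * E := by
    refine abs_ev_le (by positivity) (by positivity) fun i j hc => ?_
    have hw : (t : ℤ) * i + s * j ≤ S := by
      by_contra hcon
      push Not at hcon
      refine hc (co_of_cf (c5 i j ?_))
      linarith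
    have hw' : (t : ℝ) * i + s * j ≤ S := by exact_mod_cast hw
    have h1 : (((p : ℤ) : ℝ)) ^ i * (((q : ℤ) : ℝ)) ^ j =
        Real.exp (i * Real.log p + j * Real.log q) := by
      rw [Real.exp_add, mul_comm (i : ℝ), mul_comm (j : ℝ), Real.exp_mul, Real.exp_mul,
        Real.exp_log hp0, Real.exp_log hq0, Real.rpow_natCast, Real.rpow_natCast]
      norm_cast
    rw [h1, hE, Real.exp_le_exp]
    rw [div_mul_eq_mul_div, le_div_iff₀ hs0]
    have hi : (0 : ℝ) ≤ i := Nat.cast_nonneg i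
    calc (i * Real.log p + j * Real.log q) * s
        = i * (s * Real.log p) + s * j * Real.log q := by ring
      _ ≤ i * (t * Real.log q) + s * j * Real.log q := by
        have := mul_le_mul_of_nonneg_left hlog1 hi
        linarith
      _ = (t * i + s * j) * Real.log q := by ring
      _ ≤ S * Real.log q := mul_le_mul_of_nonneg_right hw' hlogq
  -- the bound of the rest
  have hI := hVI hSQR hLEN s t p q d S (a 1) (a 2) (by omega) hpq ht hts hlt hle2 eqn hd2 c6 c7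
  rw [← hE] at hI
  have hrest : |(NN p q w1 w2 a : ℝ)| ≤ |(ev p q (a 0) : ℝ)| +
      |(ev p q (a 1) : ℝ) * (p : ℝ) ^ s * d + (ev p q (a 2) : ℝ) * (q : ℝ) ^ t| := by
    have hpsZ : (0 : ℤ) < (p : ℤ) ^ s * (q : ℤ) ^ t := by
      have : (0 : ℤ) < p := by exact_mod_cast (by omega : 0 < p)
      have : (0 : ℤ) < q := by exact_mod_cast (by omega : 0 < q)
      positivity
    have key : ∀ e : ℤ, (e = 1 ∨ e = -1) → w2 = e * (q : ℤ) ^ t → |(NN p q w1 w2 a : ℝ)| ≤
        |(ev p q (a 0) : ℝ)| +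
        |(ev p q (a 1) : ℝ) * (p : ℝ) ^ s * d + (ev p q (a 2) : ℝ) * (q : ℝ) ^ t| := by
      intro e he hw2
      have hee : e * e = 1 := by rcases he with h | h <;> rw [h] <;> norm_num
      have hqt : (q : ℤ) ^ t ≠ 0 := pow_ne_zero _ hqZ.ne_zero
      have hw1 : e * w1 = d * (p : ℤ) ^ s := by
        apply mul_right_cancel₀ hqt
        rw [hw2] at hd
        linear_combination hd
      have h1 : e * NN p q w1 w2 a = e * ev p q (a 0) + (ev p q (a 1) * (p : ℤ) ^ s * d +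
          ev p q (a 2) * (q : ℤ) ^ t) := by
        rw [NN]
        linear_combination ev p q (a 1) * hw1 + ev p q (a 2) * e * hw2 +
          ev p q (a 2) * (q : ℤ) ^ t * hee
      have habs : |(e : ℝ)| = 1 := by rcases he with h | h <;> rw [h] <;> norm_num
      have h2 : (e : ℝ) * NN p q w1 w2 a = e * ev p q (a 0) + (ev p q (a 1) * (p : ℝ) ^ s * d +
          ev p q (a 2) * (q : ℝ) ^ t) := by exact_mod_cast h1
      calc |(NN p q w1 w2 a : ℝ)| = |(e : ℝ) * NN p q w1 w2 a| := by rw [abs_mul, habs, one_mul]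
        _ ≤ |(e : ℝ) * ev p q (a 0)| + |(ev p q (a 1) : ℝ) * (p : ℝ) ^ s * d +
            (ev p q (a 2) : ℝ) * (q : ℝ) ^ t| := by
          rw [h2]
          exact abs_add_le _ _
        _ = _ := by rw [abs_mul, habs, one_mul]
    rcases sq_eq_sq_iff_eq_or_eq_neg.1 sq2 with h | h
    · exact key 1 (Or.inl rfl) (by rw [h, one_mul])
    · exact key (-1) (Or.inr rfl) (by rw [h, neg_one_mul])
  set LL : ℝ := (len (a 0) : ℝ) + len (a 1) + len (a 2) with hLL
  have hs4 : (1 : ℝ) ≤ (s : ℝ) ^ 4 := one_le_pow₀ hs1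
  have hup : |(NN p q w1 w2 a : ℝ)| ≤ 2100 * (s : ℝ) ^ 4 * LL * E := by
    have h0 : (0 : ℝ) ≤ len (a 0) := Nat.cast_nonneg _
    calc |(NN p q w1 w2 a : ℝ)| ≤ len (a 0) * E +
          2100 * (s : ℝ) ^ 4 * ((len (a 1) : ℝ) + len (a 2)) * E := hrest.trans (add_le_add hA hI)
      _ ≤ 2100 * (s : ℝ) ^ 4 * len (a 0) * E +
          2100 * (s : ℝ) ^ 4 * ((len (a 1) : ℝ) + len (a 2)) * E := by
        have : (len (a 0) : ℝ) * E ≤ 2100 * (s : ℝ) ^ 4 * len (a 0) * E := by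
          apply mul_le_mul_of_nonneg_right _ hE0.le
          nlinarith
        linarith
      _ = 2100 * (s : ℝ) ^ 4 * LL * E := by rw [hLL]; ring
  have hall := hlowR.trans hup
  have hpqpos : (0 : ℝ) < (p : ℝ) ^ (2 * t) * (q : ℝ) ^ (2 * t) := by positivity
  have hLpos : 0 < LL := by
    have h1 := hpqpos.trans_le hall
    by_contra hcon
    push Not at hcon
    have h2 : 2100 * (s : ℝ) ^ 4 * LL * E ≤ 0 := by
      apply mul_nonpos_of_nonpos_of_nonneg _ hE0.le
      exact mul_nonpos_of_nonneg_of_nonpos (by positivity) hcon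
    linarith
  have hlogs := Real.log_le_log hpqpos hall
  rw [Real.log_mul (by positivity) (by positivity), Real.log_mul (by positivity) (by positivity),
    Real.log_pow, Real.log_pow, hE, Real.log_exp] at hlogs
  have h84 : Real.log (8400 * (s : ℝ) ^ 4 * LL) =
      Real.log (2100 * (s : ℝ) ^ 4 * LL) + 2 * Real.log 2 := by
    have : 8400 * (s : ℝ) ^ 4 * LL = 2100 * (s : ℝ) ^ 4 * LL * 2 ^ 2 := by ring
    rw [this, Real.log_mul (by positivity) (by positivity), Real.log_pow]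
    norm_num
  rw [h84]
  have hts' : (t : ℝ) ≤ s := by exact_mod_cast hts
  have ht0 : (0 : ℝ) ≤ t := Nat.cast_nonneg t
  have hl2 : 0 ≤ Real.log 2 := Real.log_nonneg (by norm_num)
  have h1 : 2 * (t : ℝ) ^ 2 / s * Real.log q ≤ 2 * t * Real.log p + 2 * Real.log 2 := by
    rw [div_mul_eq_mul_div, div_le_iff₀ hs0]
    calc 2 * (t : ℝ) ^ 2 * Real.log q = 2 * t * (t * Real.log q) := by ring
      _ ≤ 2 * t * (Real.log 2 + s * Real.log p) :=
        mul_le_mul_of_nonneg_left hlog2 (by positivity)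
      _ = 2 * t * Real.log p * s + 2 * Real.log 2 * t := by ring
      _ ≤ 2 * t * Real.log p * s + 2 * Real.log 2 * s := by
        have := mul_le_mul_of_nonneg_left hts' (by positivity : 0 ≤ 2 * Real.log 2)
        linarith
      _ = (2 * t * Real.log p + 2 * Real.log 2) * s := by ring
  have h2 : (2 * (s : ℝ) * t + 2 * (t : ℝ) ^ 2 - S) / s * Real.log q =
      2 * t * Real.log q + 2 * (t : ℝ) ^ 2 / s * Real.log q - S / s * Real.log q := by
    field_simp
  rw [h2]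
  push_cast at hlogs
  linarith

end Pool.Agent.Helper64.OV.VAL
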